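import Pool.Agent.H82R2.Dim.Index
import Pool.Agent.H82R2.Dim.Transport
import Pool.Agent.H82R2.Dim.Square
import Pool.Agent.H82R2.Dim.DimDef
import Pool.Agent.H82R2.Dim.Irr

/-!
# Irrational Hausdorff dimensions of closures of self-similar groups (MP_b868f5_al)

`Mealy Q A` (file `Dim/Bridge.lean`): invertible automaton with states `Q` and alphabet `A`;
`M.group` is the group generated by all its states (acting on the set of words), `levelStab A n`
the stabiliser of level `n`, `M.levelCard n = |L / st_L(n)|`.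

`M.hdim` (file `Dim/DimDef.lean`) is the Hausdorff dimension of the closure of `L = M.group` in
`Aut T_m`, `liminf log |L/st_L(n)| / log |Aut T/st(n)|`, `|Aut T/st(n)| = (m!)^(1+m+...+m^(n-1))`.

`M.hdimSylow p` is the Hausdorff dimension relative to a Sylow pro-`p` subgroup: the
denominator is the logarithm of the order `p^(v_p(|Aut T/st(n)|))` of a Sylow `p`-subgroup of
`Aut T / st(n)`.
-/

namespace Pool.Agent.Results.MP_b868f5_al.IrrationalDimension

open Pool.Agent.H82R2.Dim Filter

/-- the letters -/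
noncomputable def letters : Z ≃ Fin 66 :=
  Fintype.equivFinOfCardEq (by simp [Z])

/-- the automaton over 66 letters -/
noncomputable def M66 : Mealy Q (Fin 66) :=
  (⟨fun q => MulAction.toPerm (lab q), nxt⟩ : Mealy Q Z).transport letters

/-- pairs of letters -/
noncomputable def letters2 : Fin 66 × Fin 66 ≃ Fin (66 ^ 2) :=
  Fintype.equivFinOfCardEq (by simp)

/-- the same group, acting on the tree of the even levels -/
noncomputable def M4356 : Mealy Q (Fin (66 ^ 2)) := M66.square.transport letters2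

instance : FaithfulSMul P Z where
  eq_of_smul_eq_smul := by
    intro p q h
    have h1 := h (Sum.inl 0)
    have h2 := h (Sum.inr 0)
    rw [smul_inl, smul_inl, add_zero, add_zero] at h1
    rw [smul_inr, smul_inr, add_zero, add_zero] at h2
    have e1 := Sum.inl_injective h1
    have e2 := Sum.inr_injective h2
    exact Multiplicative.toAdd.injective (Prod.ext e1 e2)

lemma levelCard_M66 (n : ℕ) : M66.levelCard n = Nat.card (G n) := by
  unfold M66
  rw [levelCard_transport, levelCard_eq]
  rfl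

lemma levelCard_M4356 (n : ℕ) : M4356.levelCard n = M66.levelCard (2 * n) := by
  unfold M4356
  rw [levelCard_transport, levelCard_square]

lemma exists_two_pow (n : ℕ) : ∃ k, M66.levelCard n = 2 ^ k := by
  rw [levelCard_M66]
  exact card_sub n (G n)

lemma exists_limit : ∃ S : ℝ, Irrational S ∧
    Tendsto (fun n : ℕ => Real.logb 2 (M66.levelCard n) / 66 ^ n) atTop (nhds S) := by
  obtain ⟨C, n₀, hrec⟩ := recursion
  obtain ⟨S, hS, hlim⟩ := irr nu C n₀ hrec
  have hcard : ∀ n, 3 ≤ n → Real.logb 2 (M66.levelCard n) =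
      ((nu n + (n + 1 + Nat.clog 2 n) : ℕ) : ℝ) := by
    intro n hn
    rw [levelCard_M66, card_G_eq n hn]
    push_cast
    rw [← Real.rpow_natCast, Real.logb_rpow (by norm_num) (by norm_num)]
    push_cast
    ring
  refine ⟨S, hS, ?_⟩
  refine hlim.congr' ?_
  filter_upwards [eventually_ge_atTop 3] with n hn
  rw [hcard n hn]

lemma tendsto_M4356 {S : ℝ}
    (h : Tendsto (fun n : ℕ => Real.logb 2 (M66.levelCard n) / 66 ^ n) atTop (nhds S)) :
    Tendsto (fun n : ℕ => Real.logb 2 (M4356.levelCard n) / (66 ^ 2) ^ n) atTop (nhds S) := by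
  have h2 : Tendsto (fun n : ℕ => 2 * n) atTop atTop :=
    tendsto_id.const_mul_atTop' (by norm_num)
  have := h.comp h2
  refine this.congr (fun n => ?_)
  simp only [Function.comp]
  rw [levelCard_M4356, pow_mul]

/-- a rational multiple of an irrational number which is rational forces the multiple to be zero;
two such multiples with rational values have a rational quotient -/
lemma rat_ratio {a b S : ℝ} (hS : S ≠ 0) (hb : b ≠ 0) (h1 : ¬ Irrational (a * S))
    (h2 : ¬ Irrational (b * S)) : ∃ r : ℚ, (r : ℝ) = a / b := by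
  unfold Irrational at h1 h2
  push Not at h1 h2
  obtain ⟨p, hp⟩ := h1
  obtain ⟨q, hq⟩ := h2
  refine ⟨p / q, ?_⟩
  push_cast
  rw [hp, hq]
  field_simp

/-- `log 4356!` is not a rational multiple of `log 66!` -/
lemma not_rat (r : ℚ) (h : (r : ℝ) = Real.log (Nat.factorial (66 ^ 2)) /
    Real.log (Nat.factorial 66)) : False := by
  have hf1 : (1 : ℝ) < (Nat.factorial 66 : ℝ) := by
    have : 1 < Nat.factorial 66 := lt_of_lt_of_le (by norm_num) (Nat.self_le_factorial _)
    exact_mod_cast this
  have hf2 : (1 : ℝ) < (Nat.factorial (66 ^ 2) : ℝ) := by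
    have : 1 < Nat.factorial (66 ^ 2) := lt_of_lt_of_le (by norm_num) (Nat.self_le_factorial _)
    exact_mod_cast this
  have hl1 : 0 < Real.log (Nat.factorial 66) := Real.log_pos hf1
  have hl2 : 0 < Real.log (Nat.factorial (66 ^ 2)) := Real.log_pos hf2
  have hr : (0 : ℝ) < (r : ℝ) := by rw [h]; exact div_pos hl2 hl1
  have hr' : (0 : ℚ) < r := by exact_mod_cast hr
  have hnum : 0 < r.num := Rat.num_pos.2 hr'
  obtain ⟨p, hp⟩ : ∃ p : ℕ, (p : ℤ) = r.num := ⟨r.num.toNat, Int.toNat_of_nonneg hnum.le⟩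
  have hden : (0 : ℝ) < (r.den : ℝ) := by exact_mod_cast r.den_pos
  have e : (r : ℝ) = (p : ℝ) / (r.den : ℝ) := by
    have : (r : ℝ) = (r.num : ℝ) / (r.den : ℝ) := by exact_mod_cast (Rat.num_div_den r).symm
    rw [this, ← hp]
    push_cast
    rfl
  have e2 : (r.den : ℝ) * Real.log (Nat.factorial (66 ^ 2)) =
      (p : ℝ) * Real.log (Nat.factorial 66) := by
    rw [e] at h
    rw [div_eq_div_iff hden.ne' hl1.ne'] at h
    linarith
  rw [← Real.log_pow, ← Real.log_pow] at e2
  have e3 : ((Nat.factorial (66 ^ 2) : ℝ)) ^ r.den = (Nat.factorial 66 : ℝ) ^ p :=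
    Real.log_injOn_pos (Set.mem_Ioi.2 (by positivity)) (Set.mem_Ioi.2 (by positivity)) e2
  have e4 : (Nat.factorial (66 ^ 2)) ^ r.den = (Nat.factorial 66) ^ p := by exact_mod_cast e3
  have hprime : Nat.Prime 67 := by norm_num
  have d1 : 67 ∣ (Nat.factorial (66 ^ 2)) ^ r.den :=
    dvd_pow ((hprime.dvd_factorial).2 (by norm_num)) r.den_pos.ne'
  rw [e4] at d1
  have d2 := hprime.dvd_of_dvd_pow d1
  have d3 := (hprime.dvd_factorial).1 d2
  omega

lemma irr_sylow {Q' : Type} {m : ℕ} (hm : 2 ≤ m) (M : Mealy Q' (Fin m)) {S : ℝ}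
    (hS : Irrational S)
    (h : Tendsto (fun n : ℕ => Real.logb 2 (M.levelCard n) / (m : ℝ) ^ n) atTop (nhds S)) :
    Irrational (M.hdimSylow 2) := by
  have hp : Fact (Nat.Prime 2) := ⟨Nat.prime_two⟩
  have hc : Fintype.card (Fin m) = m := Fintype.card_fin m
  rw [hdimSylow_eq M (by rw [hc]; exact hm) (by rw [hc]; exact h), hc]
  have hv : padicValNat 2 (Nat.factorial m) ≠ 0 := by
    have h1 : 2 ∣ Nat.factorial m := Nat.dvd_factorial (by norm_num) hm
    have := (padicValNat_dvd_iff_le (p := 2) (Nat.factorial_ne_zero m) (n := 1)).1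
      (by simpa using h1)
    omega
  have e : ((m : ℝ) - 1) / (padicValNat 2 (Nat.factorial m) : ℝ) * S =
      ((((m : ℚ) - 1) / (padicValNat 2 (Nat.factorial m) : ℚ) : ℚ) : ℝ) * S := by
    push_cast; ring
  rw [e]
  apply hS.ratCast_mul
  apply div_ne_zero
  · have : (1 : ℚ) < m := by exact_mod_cast (by omega : 1 < m)
    have : (0 : ℚ) < m - 1 := by linarith
    exact this.ne'
  · exact_mod_cast hv

/-- There is a self-similar group (generated by the states of a finite invertible automaton over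
`m` letters, `m = 66` or `m = 66 ^ 2`) whose closure in `Aut T_m` has irrational Hausdorff
dimension. All its level quotients are 2-groups, the exponents `log_2 |L/st_L(n)|` divided by
`m^n` tend to an irrational number, and the Hausdorff dimension relative to the Sylow pro-2
subgroup is irrational too. -/
theorem result :
    ∃ m : ℕ, (m = 66 ∨ m = 66 ^ 2) ∧ ∃ (Q : Type) (_ : Fintype Q) (M : Mealy Q (Fin m)),
      Irrational M.hdim ∧ Irrational (M.hdimSylow 2) ∧ (∀ n, ∃ k, M.levelCard n = 2 ^ k) ∧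
      ∃ S : ℝ, Irrational S ∧
        Tendsto (fun n : ℕ => Real.logb 2 (M.levelCard n) / (m : ℝ) ^ n) atTop (nhds S) := by
  obtain ⟨S, hS, hT⟩ := exists_limit
  have hT1 : Tendsto (fun n : ℕ => Real.logb 2 (M66.levelCard n) / ((66 : ℕ) : ℝ) ^ n)
      atTop (nhds S) := by
    simpa using hT
  have hT2 : Tendsto (fun n : ℕ => Real.logb 2 (M4356.levelCard n) / ((66 ^ 2 : ℕ) : ℝ) ^ n)
      atTop (nhds S) := by
    have := tendsto_M4356 hT
    have e : ((66 ^ 2 : ℕ) : ℝ) = 66 ^ 2 := by norm_num
    rw [e]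
    exact this
  by_cases h : Irrational M66.hdim
  · exact ⟨66, Or.inl rfl, Q, inferInstance, M66, h, irr_sylow (by norm_num) M66 hS hT1,
      exists_two_pow, S, hS, hT1⟩
  by_cases h' : Irrational M4356.hdim
  · refine ⟨66 ^ 2, Or.inr rfl, Q, inferInstance, M4356, h', irr_sylow (by norm_num) M4356 hS hT2,
      ?_, S, hS, hT2⟩
    intro n
    rw [levelCard_M4356]
    exact exists_two_pow _
  exfalso
  have c1 : Fintype.card (Fin 66) = 66 := Fintype.card_fin _
  have c2 : Fintype.card (Fin (66 ^ 2)) = 66 ^ 2 := Fintype.card_fin _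
  rw [hdim_eq M66 (by rw [c1]; norm_num) (by rw [c1]; exact hT1), c1] at h
  rw [hdim_eq M4356 (by rw [c2]; norm_num) (by rw [c2]; exact hT2), c2] at h'
  have hl2 : 0 < Real.log 2 := Real.log_pos (by norm_num)
  have hf1 : (1 : ℝ) < (Nat.factorial 66 : ℝ) := by
    have : 1 < Nat.factorial 66 := lt_of_lt_of_le (by norm_num) (Nat.self_le_factorial _)
    exact_mod_cast this
  have hf2 : (1 : ℝ) < (Nat.factorial (66 ^ 2) : ℝ) := by
    have : 1 < Nat.factorial (66 ^ 2) := lt_of_lt_of_le (by norm_num) (Nat.self_le_factorial _)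
    exact_mod_cast this
  have hl3 : 0 < Real.log (Nat.factorial 66) := Real.log_pos hf1
  have hl4 : 0 < Real.log (Nat.factorial (66 ^ 2)) := Real.log_pos hf2
  have hS0 : S ≠ 0 := hS.ne_zero
  obtain ⟨r, hr⟩ := rat_ratio hS0 (by
    apply div_ne_zero _ hl4.ne'
    apply mul_ne_zero _ hl2.ne'
    norm_num) h h'
  apply not_rat (r * 67)
  push_cast
  rw [hr]
  push_cast
  generalize Real.log (Nat.factorial 66) = x at *
  generalize hy : Real.log (Nat.factorial (66 ^ 2)) = y at *
  field_simp
  norm_num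

end Pool.Agent.Results.MP_b868f5_al.IrrationalDimension
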